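import Pool.Agent.Run7.h771.QC.Q8
import Pool.Agent.Run7.h771.QC.Q10
import Pool.Agent.Run7.h630.QC.Q11

/-!
# The derivative of the dressings and of the fields, as linear maps
-/

open MeasureTheory Matrix Filter Topology
open scoped Matrix.Norms.Frobenius ComplexConjugate

namespace Run7.h771.QF

open Run7.h4.YM Run7.h630.ML Run7.h630.MQ Run7.h630.QC Run7.h771.MQ Run7.h771.QC Run7.h370.QC
  Run7.h370.MQ

noncomputable section

variable {N n L l : ℕ}

/-- the derivative of the loop -/
def dlo (d : Fin 4) (U : Link n L l → SU N) (K : Link n L l → Mt N) (x : Site n L l) : Mt N :=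
  ∑ τ ∈ Finset.range l, seg (ud d U x) 0 τ * K (d, x + τ • dir d) * seg (ud d U x) τ (l - τ)

theorem hasDerivAt_dlo (d : Fin 4) (U : Link n L l → SU N) {K : Link n L l → Mt N}
    (hK : ∀ e, SkT (K e)) (x : Site n L l) :
    HasDerivAt (fun t : ℝ => (lo d (fg K t U) x).1) (dlo d U K x) 0 := by
  have hM' : ∀ s, HasDerivAt (fun t => ud d (fg K t U) x s)
      (K (d, x + s • dir d) * ud d (fg K 0 U) x s) 0 := by
    intro s
    have h1 : (fun t => ud d (fg K t U) x s) =
        fun t => (ex t (K (d, x + s • dir d))).1 * ud d U x s := by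
      funext t; exact ud_fg d K t U x s
    rw [h1, fg_zero]
    exact (hasDerivAt_ex (hK _).1 (hK _).2).mul_const _
  have h1 := hasDerivAt_seg (fun t s => ud d (fg K t U) x s)
    (fun s => K (d, x + s • dir d)) hM' l
  have h2 : (fun t : ℝ => (lo d (fg K t U) x).1) =
      fun t => seg (fun s => ud d (fg K t U) x s) 0 l := by
    funext t
    exact lo_coe d _ x
  rw [h2]
  refine h1.congr_deriv ?_
  simp only [fg_zero]
  rfl

/-- the derivative of a power -/
def dpw (P D : Mt N) (c : ℕ) : Mt N := ∑ r ∈ Finset.range c, P ^ r * D * P ^ (c - 1 - r)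

/-- the derivative of the dressing -/
def dDr (α : Col N) (U : Link n L l → SU N) (K : Link n L l → Mt N) (x : Site n L l) : Mt N :=
  dpw (lo 2 U x).1 (dlo 2 U K x) α.1 * (lo 3 U x ^ (α.2 : ℕ)).1 +
    (lo 2 U x ^ (α.1 : ℕ)).1 * dpw (lo 3 U x).1 (dlo 3 U K x) α.2

theorem hasDerivAt_dDr (α : Col N) (U : Link n L l → SU N) {K : Link n L l → Mt N}
    (hK : ∀ e, SkT (K e)) (x : Site n L l) :
    HasDerivAt (fun t : ℝ => (Dr α (fg K t U) x).1) (dDr α U K x) 0 := by
  have h1 := hasDerivAt_pow_ring _ _ (hasDerivAt_dlo 2 U hK x) α.1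
  have h2 := hasDerivAt_pow_ring _ _ (hasDerivAt_dlo 3 U hK x) α.2
  have h3 := h1.mul h2
  simp only [fg_zero] at h3
  exact h3

theorem dlo_add (d : Fin 4) (U : Link n L l → SU N) (K K' : Link n L l → Mt N)
    (x : Site n L l) : dlo d U (K + K') x = dlo d U K x + dlo d U K' x := by
  unfold dlo
  simp only [Pi.add_apply, mul_add, add_mul, Finset.sum_add_distrib]

theorem dlo_smul (d : Fin 4) (U : Link n L l → SU N) (r : ℝ) (K : Link n L l → Mt N)
    (x : Site n L l) : dlo d U (r • K) x = r • dlo d U K x := by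
  unfold dlo
  simp only [Pi.smul_apply, mul_smul_comm, smul_mul_assoc, Finset.smul_sum]

theorem dpw_add (P D D' : Mt N) (c : ℕ) : dpw P (D + D') c = dpw P D c + dpw P D' c := by
  unfold dpw
  simp only [mul_add, add_mul, Finset.sum_add_distrib]

theorem dpw_smul (P : Mt N) (r : ℝ) (D : Mt N) (c : ℕ) : dpw P (r • D) c = r • dpw P D c := by
  unfold dpw
  simp only [mul_smul_comm, smul_mul_assoc, Finset.smul_sum]

theorem dDr_add (α : Col N) (U : Link n L l → SU N) (K K' : Link n L l → Mt N)
    (x : Site n L l) : dDr α U (K + K') x = dDr α U K x + dDr α U K' x := by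
  unfold dDr
  rw [dlo_add, dlo_add, dpw_add, dpw_add, add_mul, mul_add]
  abel

theorem dDr_smul (α : Col N) (U : Link n L l → SU N) (r : ℝ) (K : Link n L l → Mt N)
    (x : Site n L l) : dDr α U (r • K) x = r • dDr α U K x := by
  unfold dDr
  rw [dlo_smul, dlo_smul, dpw_smul, dpw_smul, smul_mul_assoc, mul_smul_comm, smul_add]

theorem dp_add (U : Link n L l → SU N) (K K' : Link n L l → Mt N) (x : Site n L l)
    (i j : Fin 4) : dp U (K + K') x i j = dp U K x i j + dp U K' x i j := by
  unfold dp
  simp only [Pi.add_apply, mul_add, add_mul]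
  abel

theorem dp_smul (U : Link n L l → SU N) (r : ℝ) (K : Link n L l → Mt N) (x : Site n L l)
    (i j : Fin 4) : dp U (r • K) x i j = r • dp U K x i j := by
  unfold dp
  simp only [Pi.smul_apply, mul_smul_comm, smul_mul_assoc, ← smul_add, ← smul_sub]

/-- the derivative of the curvature of the colour `α` -/
def dph (k : ℕ) (q : ZMod n × ZMod L → ZMod N) (α : Col N) (U : Link n L l → SU N)
    (K : Link n L l → Mt N) (i j : Fin 4) (x : Site n L l) : ℂ :=
  trace (dDr α U K x * Fc k q U x i j + (Dr α U x).1 * (zz N k q x i j • dp U K x i j))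

theorem hasDerivAt_dph (k : ℕ) (q : ZMod n × ZMod L → ZMod N) (α : Col N)
    (U : Link n L l → SU N) {K : Link n L l → Mt N} (hK : ∀ e, SkT (K e)) (i j : Fin 4)
    (x : Site n L l) :
    HasDerivAt (fun t : ℝ => ph2 k q α (fg K t U) i j x) (dph k q α U K i j x) 0 := by
  have hF : HasDerivAt (fun t : ℝ => Fc k q (fg K t U) x i j)
      (zz N k q x i j • dp U K x i j) 0 := by
    unfold Fc
    exact ((hasDerivAt_plaqg U hK x i j).const_smul (zz N k q x i j)).sub_const 1
  have hT := hasDerivAt_trace _ _ ((hasDerivAt_dDr α U hK x).mul hF)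
  simp only [fg_zero] at hT
  exact hT

theorem dph_add (k : ℕ) (q : ZMod n × ZMod L → ZMod N) (α : Col N)
    (U : Link n L l → SU N) (K K' : Link n L l → Mt N) (i j : Fin 4)
    (x : Site n L l) : dph k q α U (K + K') i j x = dph k q α U K i j x + dph k q α U K' i j x := by
  unfold dph
  rw [dDr_add, dp_add, smul_add, mul_add, add_mul, ← trace_add]
  congr 1
  abel

theorem dph_smul (k : ℕ) (q : ZMod n × ZMod L → ZMod N) (α : Col N)
    (U : Link n L l → SU N) (r : ℝ) (K : Link n L l → Mt N) (i j : Fin 4)
    (x : Site n L l) : dph k q α U (r • K) i j x = r • dph k q α U K i j x := by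
  unfold dph
  rw [dDr_smul, dp_smul, smul_comm (zz N k q x i j) r, mul_smul_comm r, smul_mul_assoc,
    ← smul_add, trace_smul]

theorem cont_dlo (d : Fin 4) (K : Link n L l → Mt N) (x : Site n L l) :
    Continuous fun U : Link n L l → SU N => dlo d U K x := by
  have hs : ∀ a b : ℕ, Continuous fun U : Link n L l → SU N => seg (ud d U x) a b := by
    intro a b
    unfold seg ud
    exact continuous_list_prod _ fun s _ => cont_link _
  unfold dlo
  exact continuous_finsetSum _ fun τ _ => ((hs _ _).mul continuous_const).mul (hs _ _)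

theorem cont_lo (d : Fin 4) (x : Site n L l) :
    Continuous fun U : Link n L l → SU N => lo d U x := by
  unfold lo
  exact cont_list (fun (t : ℕ) (U : Link n L l → SU N) => U (d, x + t • dir d))
    (fun t => continuous_apply _) _

theorem cont_dpw {X : Type*} [TopologicalSpace X] {P D : X → Mt N} (hP : Continuous P)
    (hD : Continuous D) (c : ℕ) : Continuous fun v => dpw (P v) (D v) c := by
  unfold dpw
  exact continuous_finsetSum _ fun r _ => ((hP.pow _).mul hD).mul (hP.pow _)

theorem cont_dDr (α : Col N) (K : Link n L l → Mt N) (x : Site n L l) :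
    Continuous fun U : Link n L l → SU N => dDr α U K x := by
  unfold dDr
  have h : ∀ (d : Fin 4) (c : ℕ), Continuous fun U : Link n L l → SU N => (lo d U x ^ c).1 :=
    fun d c => continuous_subtype_val.comp ((cont_lo d x).pow c)
  have h' : ∀ (d : Fin 4), Continuous fun U : Link n L l → SU N => (lo d U x).1 :=
    fun d => continuous_subtype_val.comp (cont_lo d x)
  exact ((cont_dpw (h' 2) (cont_dlo 2 K x) _).mul (h 3 _)).add
    ((h 2 _).mul (cont_dpw (h' 3) (cont_dlo 3 K x) _))

theorem cont_dph (k : ℕ) (q : ZMod n × ZMod L → ZMod N) (α : Col N) (K : Link n L l → Mt N)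
    (i j : Fin 4) (x : Site n L l) :
    Continuous fun U : Link n L l → SU N => dph k q α U K i j x := by
  unfold dph
  refine Continuous.matrix_trace ?_
  have hdp : Continuous fun U : Link n L l → SU N => dp U K x i j := by
    unfold dp
    have hl := fun e => cont_link (N := N) (n := n) (L := L) (l := l) e
    exact ((continuous_const.add (((hl _).mul continuous_const).mul
      (hl _).matrix_conjTranspose)).mul (cont_plaqv x i j)).sub ((cont_plaqv x i j).mul
        ((((hl _).mul continuous_const).mul (hl _).matrix_conjTranspose).add continuous_const))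
  exact ((cont_dDr α K x).mul (cont_Fc k q x i j)).add ((cont_Drv α x).mul
    (hdp.const_smul (zz N k q x i j)))

/-- a linear form, evaluated at a skew-Hermitian field -/
theorem lin_sum [NeZero n] [NeZero L] [NeZero l] (T : (Link n L l → Mt N) →ₗ[ℝ] ℝ)
    (K : Link n L l → Mt N) (hK : ∀ e, SkT (K e)) :
    T K = ∑ e, ∑ a : Fin N, ∑ b : Fin N,
      ((K e a b).re * T (Pi.single e (pr (Eu a b))) +
        (K e a b).im * T (Pi.single e (pr (Complex.I • Eu a b)))) := by
  have h1 : K = ∑ e, Pi.single e (K e) := (Finset.univ_sum_single K).symm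
  have h3 : ∀ e, (Pi.single e (K e) : Link n L l → Mt N) = ∑ a : Fin N, ∑ b : Fin N,
      ((K e a b).re • (Pi.single e (pr (Eu a b)) : Link n L l → Mt N) +
        (K e a b).im • (Pi.single e (pr (Complex.I • Eu a b)) : Link n L l → Mt N)) := by
    intro e
    conv_lhs => rw [sum_units (hK e)]
    funext e'
    by_cases h : e' = e
    · subst h
      simp only [Pi.single_eq_same, Finset.sum_apply, Pi.add_apply, Pi.smul_apply]
    · simp only [Pi.single_eq_of_ne h, Finset.sum_apply, Pi.add_apply, Pi.smul_apply, smul_zero,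
        add_zero, Finset.sum_const_zero]
  conv_lhs => rw [h1]
  rw [map_sum]
  refine Finset.sum_congr rfl fun e _ => ?_
  rw [h3 e]
  simp only [map_sum, map_add, map_smul, smul_eq_mul]

end

end Run7.h771.QF
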