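import Pool.Agent.Run7.h630.QF.Iface
import Pool.Agent.Run7.h771.QF.Der

/-!
# The Schwinger-Dyson equation with a function of the field (piece R1)
-/

open MeasureTheory Matrix Filter Topology
open scoped Matrix.Norms.Frobenius ComplexConjugate

namespace Run7.h771.QF

open Run7.h4.YM Run7.h630.ML Run7.h630.MQ Run7.h630.QC Run7.h771.MQ Run7.h771.QC Run7.h370.QC
  Run7.h370.MQ Run7.h630.QF

noncomputable section

variable {N n L l : ℕ}

/-- the derivative of the field, as a linear form -/
def dPh [NeZero N] [NeZero n] [NeZero L] [NeZero l] (k : ℕ) (q : ZMod n × ZMod L → ZMod N)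
    (f : Col N → Fin 4 → Fin 4 → Site n L l → ℂ) (U : Link n L l → SU N) :
    (Link n L l → Mt N) →ₗ[ℝ] ℝ where
  toFun K := ∑ α ∈ Cz N, ∑ x : Site n L l, ∑ i : Fin 4, ∑ j ∈ Finset.Ioi i,
    (f α i j x * dph k q α U K i j x).re
  map_add' K K' := by
    simp only [dph_add, mul_add, Complex.add_re, Finset.sum_add_distrib]
  map_smul' r K := by
    simp only [dph_smul, Complex.real_smul, RingHom.id_apply, smul_eq_mul, Finset.mul_sum]
    refine Finset.sum_congr rfl fun α _ => Finset.sum_congr rfl fun x _ =>
      Finset.sum_congr rfl fun i _ => Finset.sum_congr rfl fun j _ => ?_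
    rw [mul_left_comm, Complex.re_ofReal_mul]

theorem hasDerivAt_Ph [NeZero N] [NeZero n] [NeZero L] [NeZero l] (k : ℕ)
    (q : ZMod n × ZMod L → ZMod N) (f : Col N → Fin 4 → Fin 4 → Site n L l → ℂ)
    (U : Link n L l → SU N) {K : Link n L l → Mt N} (hK : ∀ e, SkT (K e)) :
    HasDerivAt (fun t : ℝ => Ph k q f (fg K t U)) (dPh k q f U K) 0 := by
  unfold Ph
  refine HasDerivAt.fun_sum fun α _ => HasDerivAt.fun_sum fun x _ => HasDerivAt.fun_sum fun i _ =>
    HasDerivAt.fun_sum fun j _ => ?_
  exact Complex.reCLM.hasFDerivAt.comp_hasDerivAt (0 : ℝ)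
    ((hasDerivAt_dph k q α U hK i j x).const_mul (f α i j x))

theorem cont_Ph [NeZero N] [NeZero n] [NeZero L] [NeZero l] (k : ℕ)
    (q : ZMod n × ZMod L → ZMod N) (f : Col N → Fin 4 → Fin 4 → Site n L l → ℂ) :
    Continuous fun U : Link n L l → SU N => Ph k q f U := by
  unfold Ph
  exact continuous_finsetSum _ fun α _ => continuous_finsetSum _ fun x _ =>
    continuous_finsetSum _ fun i _ => continuous_finsetSum _ fun j _ =>
      Complex.continuous_re.comp (continuous_const.mul (cont_ph2 k q α i j x))

theorem cont_dPh [NeZero N] [NeZero n] [NeZero L] [NeZero l] (k : ℕ)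
    (q : ZMod n × ZMod L → ZMod N) (f : Col N → Fin 4 → Fin 4 → Site n L l → ℂ)
    (K : Link n L l → Mt N) :
    Continuous fun U : Link n L l → SU N => dPh k q f U K := by
  have h : Continuous fun U : Link n L l → SU N => ∑ α ∈ Cz N, ∑ x : Site n L l, ∑ i : Fin 4,
      ∑ j ∈ Finset.Ioi i, (f α i j x * dph k q α U K i j x).re :=
    continuous_finsetSum _ fun α _ => continuous_finsetSum _ fun x _ =>
      continuous_finsetSum _ fun i _ => continuous_finsetSum _ fun j _ =>
        Complex.continuous_re.comp (continuous_const.mul (cont_dph k q α K i j x))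
  exact h

theorem cont_Ka [NeZero N] (a : Col N → Fin 4 → Site n L l → ℂ) (e : Link n L l) :
    Continuous fun U : Link n L l → SU N => Ka a U e := by
  unfold Ka
  exact cont_pr (continuous_finsetSum _ fun α _ => (cont_Drv α e.2).const_smul (a α e.1 e.2))

theorem skT_Ka [NeZero N] (a : Col N → Fin 4 → Site n L l → ℂ) (U : Link n L l → SU N)
    (e : Link n L l) : SkT (Ka a U e) := skT_pr _

theorem t_R1 : S_R1 := by
  intro N n L l k _ _ _ _ _ _ μ _ _ q β f a Kd C hD
  have hX := fun e => cont_Ka (N := N) a e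
  have hXre : ∀ (e : Link n L l) (i j : Fin N), Continuous fun U => (Ka a U e i j).re :=
    fun e i j => (LinearMap.toContinuousLinearMap (reL i j)).continuous.comp (hX e)
  have hXim : ∀ (e : Link n L l) (i j : Fin N), Continuous fun U => (Ka a U e i j).im :=
    fun e i j => (LinearMap.toContinuousLinearMap (imL i j)).continuous.comp (hX e)
  have hsum : ∀ U, dPh k q f U (Ka a U) = _ := fun U =>
    lin_sum (dPh k q f U) (Ka a U) (skT_Ka a U)
  have hcF : Continuous fun U : Link n L l → SU N => dPh k q f U (Ka a U) := by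
    simp only [hsum]
    exact continuous_finsetSum _ fun e _ => continuous_finsetSum _ fun i _ =>
      continuous_finsetSum _ fun j _ => ((hXre e i j).mul (cont_dPh k q f _)).add
        ((hXim e i j).mul (cont_dPh k q f _))
  have hdre : ∀ (e : Link n L l) (i j : Fin N) (U : Link n L l → SU N),
      HasDerivAt (fun t : ℝ => (Ka a (fg (Pi.single e (pr (Eu i j))) t U) e i j).re)
        ((Kd U e (pr (Eu i j))) i j).re 0 := fun e i j U =>
    (LinearMap.toContinuousLinearMap (reL i j)).hasFDerivAt.comp_hasDerivAt (0 : ℝ)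
      (hD U e _ (skT_pr _)).1
  have hdim : ∀ (e : Link n L l) (i j : Fin N) (U : Link n L l → SU N),
      HasDerivAt (fun t : ℝ => (Ka a (fg (Pi.single e (pr (Complex.I • Eu i j))) t U) e i j).im)
        ((Kd U e (pr (Complex.I • Eu i j))) i j).im 0 := fun e i j U =>
    (LinearMap.toContinuousLinearMap (imL i j)).hasFDerivAt.comp_hasDerivAt (0 : ℝ)
      (hD U e _ (skT_pr _)).1
  have bre : ∀ (e : Link n L l) (i j : Fin N) (U : Link n L l → SU N),
      |((Kd U e (pr (Eu i j))) i j).re| ≤ C * ‖pr (Eu i j)‖ := fun e i j U =>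
    (Complex.abs_re_le_norm _).trans ((abs_entry_le _ i j).trans (hD U e _ (skT_pr _)).2)
  have bim : ∀ (e : Link n L l) (i j : Fin N) (U : Link n L l → SU N),
      |((Kd U e (pr (Complex.I • Eu i j))) i j).im| ≤ C * ‖pr (Complex.I • Eu i j)‖ :=
    fun e i j U => (Complex.abs_im_le_norm _).trans
      ((abs_entry_le _ i j).trans (hD U e _ (skT_pr _)).2)
  refine ⟨fun U => dPh k q f U (Ka a U), fun U => hasDerivAt_Ph k q f U (skT_Ka a U),
    hcF.measurable, ?_, ?_, ?_, ?_⟩
  · obtain ⟨B, _, hB⟩ := exists_bound _ hcF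
    exact ⟨B, hB⟩
  · refine Finset.measurable_fun_sum _ fun e _ => Finset.measurable_fun_sum _ fun i _ =>
      Finset.measurable_fun_sum _ fun j _ => ?_
    exact (measurable_deriv _ _ _ (hXre e i j) (hdre e i j)).add
      (measurable_deriv _ _ _ (hXim e i j) (hdim e i j))
  · refine ⟨∑ e : Link n L l, ∑ i : Fin N, ∑ j : Fin N, (C * ‖(pr (Eu i j) : Mt N)‖ +
      C * ‖(pr (Complex.I • Eu i j) : Mt N)‖), fun U => ?_⟩
    unfold dvs
    refine (Finset.abs_sum_le_sum_abs _ _).trans (Finset.sum_le_sum fun e _ => ?_)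
    refine (Finset.abs_sum_le_sum_abs _ _).trans (Finset.sum_le_sum fun i _ => ?_)
    refine (Finset.abs_sum_le_sum_abs _ _).trans (Finset.sum_le_sum fun j _ => ?_)
    exact (abs_add_le _ _).trans (add_le_add (bre e i j U) (bim e i j U))
  · intro g g' hg hg'
    have hgc : Continuous g := continuous_iff_continuousAt.2 fun y => (hg y).continuousAt
    have hP := cont_Ph (N := N) k q f
    have hG : Continuous fun U : Link n L l → SU N => g (Ph k q f U) := hgc.comp hP
    have hG' : Continuous fun U : Link n L l → SU N => g' (Ph k q f U) := hg'.comp hP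
    obtain ⟨BG, hBG0, hBG⟩ := exists_bound _ hG
    have hdG : ∀ (K : Link n L l → Mt N) (hK : ∀ e, SkT (K e)) (U : Link n L l → SU N),
        HasDerivAt (fun t : ℝ => g (Ph k q f (fg K t U)))
          (g' (Ph k q f U) * dPh k q f U K) 0 := by
      intro K hK U
      have h1 := hasDerivAt_Ph k q f U hK
      have h2 : HasDerivAt g (g' (Ph k q f U)) (Ph k q f (fg K 0 U)) := by
        rw [fg_zero]; exact hg _
      exact h2.comp (0 : ℝ) h1
    -- the Schwinger-Dyson equation of a product
    have key : ∀ (K : Link n L l → Mt N) (hK : ∀ e, SkT (K e)) (u Du : (Link n L l → SU N) → ℝ)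
        (B : ℝ), Continuous u → (∀ U, |Du U| ≤ B) →
        (∀ U, HasDerivAt (fun t : ℝ => u (fg K t U)) (Du U) 0) →
        Integrable (fun U => (β * (u U * g (Ph k q f U) * dSq k q U K) - (Du U * g (Ph k q f U) +
          u U * (g' (Ph k q f U) * dPh k q f U K))) * Real.exp (-(β * Sq k q U)))
          (Measure.pi fun _ : Link n L l => μ) ∧
        ∫ U, (β * (u U * g (Ph k q f U) * dSq k q U K) - (Du U * g (Ph k q f U) +
          u U * (g' (Ph k q f U) * dPh k q f U K))) * Real.exp (-(β * Sq k q U))
          ∂(Measure.pi fun _ : Link n L l => μ) = 0 := by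
      intro K hK u Du B hu hB hDu
      obtain ⟨B2, _, hB2⟩ := exists_bound _ (hu.mul (hG'.mul (cont_dPh k q f K)))
      refine (sd_one μ k q β hK (fun U => u U * g (Ph k q f U)) (fun U => Du U * g (Ph k q f U) +
          u U * (g' (Ph k q f U) * dPh k q f U K)) (hu.mul hG) (B * BG + B2) ?_ ?_).2
      · intro U
        refine (abs_add_le _ _).trans (add_le_add ?_ (hB2 U))
        rw [abs_mul]
        exact mul_le_mul (hB U) (hBG U) (abs_nonneg _) ((abs_nonneg _).trans (hB U))
      · intro U
        have h1 := (hDu U).mul (hdG K hK U)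
        simp only [fg_zero] at h1
        exact h1
    have hre : ∀ (e : Link n L l) (i j : Fin N), _ := fun e i j =>
      key _ (skT_single (skT_pr (Eu i j)) e) (fun U => (Ka a U e i j).re)
        (fun U => ((Kd U e (pr (Eu i j))) i j).re) _ (hXre e i j) (bre e i j) (hdre e i j)
    have him : ∀ (e : Link n L l) (i j : Fin N), _ := fun e i j =>
      key _ (skT_single (skT_pr (Complex.I • Eu i j)) e) (fun U => (Ka a U e i j).im)
        (fun U => ((Kd U e (pr (Complex.I • Eu i j))) i j).im) _ (hXim e i j) (bim e i j)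
          (hdim e i j)
    have hall : ∀ U : Link n L l → SU N, (β * dSq k q U (Ka a U) * g (Ph k q f U) -
        dvs Kd U * g (Ph k q f U) - g' (Ph k q f U) * dPh k q f U (Ka a U)) *
          Real.exp (-(β * Sq k q U)) = ∑ e, ∑ i : Fin N, ∑ j : Fin N,
        ((β * ((Ka a U e i j).re * g (Ph k q f U) * dSq k q U (Pi.single e (pr (Eu i j)))) -
          (((Kd U e (pr (Eu i j))) i j).re * g (Ph k q f U) + (Ka a U e i j).re *
            (g' (Ph k q f U) * dPh k q f U (Pi.single e (pr (Eu i j)))))) *
              Real.exp (-(β * Sq k q U)) +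
        (β * ((Ka a U e i j).im * g (Ph k q f U) *
            dSq k q U (Pi.single e (pr (Complex.I • Eu i j)))) -
          (((Kd U e (pr (Complex.I • Eu i j))) i j).im * g (Ph k q f U) + (Ka a U e i j).im *
            (g' (Ph k q f U) * dPh k q f U (Pi.single e (pr (Complex.I • Eu i j)))))) *
              Real.exp (-(β * Sq k q U))) := by
      intro U
      rw [hsum U, dSq_sum k q U (Ka a U) (skT_Ka a U)]
      unfold dvs
      simp only [Finset.mul_sum, Finset.sum_mul, ← Finset.sum_sub_distrib]
      refine Finset.sum_congr rfl fun e _ => Finset.sum_congr rfl fun i _ =>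
        Finset.sum_congr rfl fun j _ => ?_
      ring
    simp only [hall]
    have hint : ∀ (e : Link n L l) (i j : Fin N), Integrable (fun U : Link n L l → SU N =>
        ((β * ((Ka a U e i j).re * g (Ph k q f U) * dSq k q U (Pi.single e (pr (Eu i j)))) -
          (((Kd U e (pr (Eu i j))) i j).re * g (Ph k q f U) + (Ka a U e i j).re *
            (g' (Ph k q f U) * dPh k q f U (Pi.single e (pr (Eu i j)))))) *
              Real.exp (-(β * Sq k q U)) +
        (β * ((Ka a U e i j).im * g (Ph k q f U) *
            dSq k q U (Pi.single e (pr (Complex.I • Eu i j)))) -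
          (((Kd U e (pr (Complex.I • Eu i j))) i j).im * g (Ph k q f U) + (Ka a U e i j).im *
            (g' (Ph k q f U) * dPh k q f U (Pi.single e (pr (Complex.I • Eu i j)))))) *
              Real.exp (-(β * Sq k q U)))) (Measure.pi fun _ : Link n L l => μ) :=
      fun e i j => (hre e i j).1.add (him e i j).1
    rw [integral_finsetSum _ fun e _ => integrable_finsetSum _ fun i _ =>
      integrable_finsetSum _ fun j _ => hint e i j]
    refine Finset.sum_eq_zero fun e _ => ?_
    rw [integral_finsetSum _ fun i _ => integrable_finsetSum _ fun j _ => hint e i j]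
    refine Finset.sum_eq_zero fun i _ => ?_
    rw [integral_finsetSum _ fun j _ => hint e i j]
    refine Finset.sum_eq_zero fun j _ => ?_
    rw [integral_add (hre e i j).1 (him e i j).1, (hre e i j).2, (him e i j).2, add_zero]

end

end Run7.h771.QF
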