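import Pool.Agent.Run7.h630.QF.Iface
import Pool.Agent.Run7.h771.QF.Der
import Pool.Agent.Run7.h270.QC.Q9
import Pool.Agent.Run7.h105.QC.Q2

/-!
# The divergence of the vector fields `Ka a` (piece R5)
-/

open MeasureTheory Matrix Filter Topology
open scoped Matrix.Norms.Frobenius ComplexConjugate

namespace Run7.h771.QF

open Run7.h4.YM Run7.h630.ML Run7.h630.MQ Run7.h630.QC Run7.h771.MQ Run7.h771.QC Run7.h370.QC
  Run7.h370.MQ Run7.h630.QF

noncomputable section

variable {N n L l : ℕ}

/-- the divergence of a linear map -/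
def div (T : Mt N → Mt N) : ℝ :=
  ∑ a : Fin N, ∑ b : Fin N, ((T (pr (Eu a b)) a b).re + (T (pr (Complex.I • Eu a b)) a b).im)

theorem div_sum {ι : Type*} (S : Finset ι) (T : ι → Mt N → Mt N) :
    div (fun A => ∑ s ∈ S, T s A) = ∑ s ∈ S, div (T s) := by
  unfold div
  rw [Finset.sum_comm (s := S)]
  refine Finset.sum_congr rfl fun a _ => ?_
  rw [Finset.sum_comm (s := S)]
  refine Finset.sum_congr rfl fun b _ => ?_
  show ((∑ s ∈ S, T s (pr (Eu a b))) a b).re + ((∑ s ∈ S, T s (pr (Complex.I • Eu a b))) a b).im = _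
  rw [Matrix.sum_apply, Matrix.sum_apply, Complex.re_sum, Complex.im_sum, Finset.sum_add_distrib]

theorem mul_Eu_mul (B C : Mt N) (a b i j : Fin N) : (B * Eu a b * C) i j = B i a * C b j := by
  unfold Eu
  rw [Matrix.mul_apply, Finset.sum_eq_single b]
  · rw [Matrix.mul_single_apply_same, mul_one]
  · intro c _ hc
    rw [Matrix.mul_single_apply_of_ne _ _ _ _ _ hc, zero_mul]
  · intro h
    exact absurd (Finset.mem_univ b) h

theorem trace_mul_Eu_mul (B C : Mt N) (a b : Fin N) :
    trace (B * Eu a b * C) = (C * B) b a := by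
  unfold trace
  rw [Matrix.mul_apply]
  refine Finset.sum_congr rfl fun i _ => ?_
  rw [diag_apply, mul_Eu_mul, mul_comm]

theorem aux1 (r : ℝ) (u v w T : ℂ) :
    (1 / 2 * (1 / 2 * (Complex.I * (u + u)) - Complex.I * (r : ℂ) * v -
        conj (1 / 2 * (Complex.I * (u + u)) - Complex.I * (r : ℂ) * v)) -
      (1 / 2 * (Complex.I * (w + w)) - Complex.I * (r : ℂ) * T -
        conj (1 / 2 * (Complex.I * (w + w)) - Complex.I * (r : ℂ) * T)) *
          ((r / 2 : ℝ) : ℂ)).im =
      (u + u + u + u).re / 4 - (v.re * r + w.re * r - T.re * r ^ 2) := by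
  have e : (1 : ℂ) / 2 = ((1 / 2 : ℝ) : ℂ) := by push_cast; ring
  rw [e]
  simp only [Complex.sub_re, Complex.sub_im, Complex.mul_re, Complex.mul_im,
    Complex.ofReal_re, Complex.ofReal_im, Complex.conj_re, Complex.conj_im, Complex.I_re,
    Complex.I_im, Complex.add_re, Complex.add_im]
  ring

theorem aux2 (x y z w : ℂ) :
    (1 / 2 * (1 / 2 * (Complex.I * (x + y)) - conj (1 / 2 * (Complex.I * (z + w))))).im =
      (x + y + z + w).re / 4 := by
  have e : (1 : ℂ) / 2 = ((1 / 2 : ℝ) : ℂ) := by push_cast; ring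
  rw [e]
  simp only [Complex.sub_im, Complex.mul_re, Complex.mul_im,
    Complex.ofReal_re, Complex.ofReal_im, Complex.conj_im, Complex.I_re,
    Complex.I_im, Complex.add_re, Complex.add_im]
  ring

/-- the divergence of `A ↦ pr (B * A * C)` -/
theorem div_mul [NeZero N] (B C : Mt N) : div (fun A => pr (B * A * C)) =
    (trace B * trace C).re - (trace (B * C)).re / N := by
  have hNr : (N : ℝ) ≠ 0 := Nat.cast_ne_zero.2 (NeZero.ne N)
  have k1 : ∀ a b : Fin N, (pr (B * pr (Eu a b) * C) a b).re =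
      (B a a * C b b - B a b * C a b - B b a * C b a + B b b * C a a).re / 4 := by
    intro a b
    rw [Run7.h270.QC.pr_Eu, mul_smul_comm, smul_mul_assoc, mul_sub, sub_mul,
      Run7.h270.QC.pr_apply, trace_smul, trace_sub, trace_mul_Eu_mul, trace_mul_Eu_mul]
    simp only [Matrix.smul_apply, Matrix.sub_apply, mul_Eu_mul, smul_eq_mul]
    set t := (C * B) b a - (C * B) a b with ht
    have e1 : ((1 / 2 : ℂ) * t - conj ((1 / 2 : ℂ) * t)) / (2 * N) * (if a = b then 1 else 0) =
        Complex.I * ((t.im / (2 * N) * (if a = b then 1 else 0) : ℝ) : ℂ) := by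
      rw [Complex.sub_conj]
      have : ((1 / 2 : ℂ) * t).im = t.im / 2 := by simp; ring
      rw [this]
      split_ifs
      · push_cast; ring
      · simp
    rw [e1]
    simp only [Complex.sub_re, Complex.mul_re, Complex.add_re, Complex.conj_re, Complex.I_re,
      Complex.I_im, Complex.ofReal_re, Complex.ofReal_im, Complex.sub_im, Complex.mul_im,
      Complex.conj_im]
    norm_num
    ring
  have k2 : ∀ a b : Fin N, (pr (B * pr (Complex.I • Eu a b) * C) a b).im =
      (B a a * C b b + B a b * C a b + B b a * C b a + B b b * C a a).re / 4 -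
        (if a = b then ((B * C) a a).re / N + ((C * B) a a).re / N -
          (trace (B * C)).re / N ^ 2 else 0) := by
    intro a b
    have hT : trace (C * B) = trace (B * C) := trace_mul_comm C B
    rw [Run7.h270.QC.pr_IEu, mul_sub, sub_mul, mul_smul_comm, smul_mul_assoc, mul_smul_comm,
      smul_mul_assoc, mul_smul_comm, smul_mul_assoc, mul_add, add_mul, mul_one,
      Run7.h270.QC.pr_apply, trace_sub, trace_smul, trace_smul, trace_smul, trace_add,
      trace_mul_Eu_mul, trace_mul_Eu_mul]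
    simp only [Matrix.smul_apply, Matrix.sub_apply, Matrix.add_apply, mul_Eu_mul, smul_eq_mul]
    by_cases h : a = b
    · subst h
      simp only [if_true]
      have e1 : Complex.I * 1 / (N : ℂ) = Complex.I * ((1 / N : ℝ) : ℂ) := by
        push_cast; ring
      have e2 : ∀ z : ℂ, z / (2 * N) * 1 = z * ((1 / N / 2 : ℝ) : ℂ) := by
        intro z; push_cast; ring
      rw [e1, e2, aux1]
      ring
    · simp only [h, if_false, mul_zero, zero_div, zero_mul, sub_zero]
      exact aux2 _ _ _ _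
  unfold div
  simp only [k1, k2]
  have k3 : ∀ a b : Fin N, (B a a * C b b - B a b * C a b - B b a * C b a + B b b * C a a).re / 4 +
      ((B a a * C b b + B a b * C a b + B b a * C b a + B b b * C a a).re / 4 -
        (if a = b then ((B * C) a a).re / N + ((C * B) a a).re / N -
          (trace (B * C)).re / N ^ 2 else 0)) =
      (B a a * C b b).re / 2 + (B b b * C a a).re / 2 - (if a = b then ((B * C) a a).re / N +
        ((C * B) a a).re / N - (trace (B * C)).re / N ^ 2 else 0) := by
    intro a b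
    simp only [Complex.sub_re, Complex.add_re]
    ring
  simp only [k3]
  simp only [Finset.sum_sub_distrib, Finset.sum_add_distrib, Finset.sum_ite_eq, Finset.mem_univ,
    if_true, ← Finset.sum_div, ← Complex.re_sum]
  have s1 : ∑ i, ∑ j, B i i * C j j = trace B * trace C := by
    unfold trace
    rw [Finset.sum_mul_sum]
    rfl
  have s2 : ∑ i, ∑ j, B j j * C i i = trace B * trace C := by
    rw [Finset.sum_comm]
    exact s1
  have s3 : ∑ i, (B * C) i i = trace (B * C) := rfl
  have s4 : ∑ i, (C * B) i i = trace (B * C) := trace_mul_comm C B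
  have s5 : ∑ _i : Fin N, trace (B * C) = ((N : ℝ) : ℂ) * trace (B * C) := by
    rw [Finset.sum_const, Finset.card_univ, Fintype.card_fin, nsmul_eq_mul]
    push_cast
    rfl
  rw [s1, s2, s3, s4, s5, Complex.re_ofReal_mul]
  field_simp
  ring

/-! ### the derivative of the dressing at one link -/

theorem smul_dir_ne' {d : Fin 4} (hd : d = 2 ∨ d = 3) {τ : ℕ} [NeZero l] (h0 : τ ≠ 0)
    (hl : τ < l) (x : Site n L l) : x + τ • dir d ≠ x := by
  rcases hd with rfl | rfl
  · exact smul_dir_ne h0 hl x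
  · intro h
    have h1 : (τ • dir 3 : Site n L l) = 0 := by simpa using h
    have h2 : (dir 3 : Site n L l) = (0, 0, 0, 1) := rfl
    rw [h2] at h1
    have h3 : ((τ : ℕ) : ZMod l) = 0 := by
      have := congrArg (fun p : Site n L l => p.2.2.2) h1
      simpa using this
    rw [ZMod.natCast_eq_zero_iff] at h3
    exact h0 (Nat.eq_zero_of_dvd_of_lt h3 hl)

theorem dlo_single {d : Fin 4} (hd : d = 2 ∨ d = 3) [NeZero l] (U : Link n L l → SU N)
    (i : Fin 4) (x : Site n L l) (A : Mt N) :
    dlo d U (Pi.single (i, x) A) x = if i = d then A * (lo d U x).1 else 0 := by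
  unfold dlo
  split_ifs with h
  · subst h
    rw [Finset.sum_eq_single 0]
    · rw [zero_smul, add_zero, Pi.single_eq_same, seg_zero, one_mul, Nat.sub_zero, lo_coe]
    · intro τ hτ h0
      rw [Finset.mem_range] at hτ
      rw [Pi.single_eq_of_ne, mul_zero, zero_mul]
      intro h'
      exact smul_dir_ne' hd h0 hτ x (congrArg Prod.snd h')
    · intro h'
      exact absurd (Finset.mem_range.mpr (Nat.pos_of_ne_zero (NeZero.ne l))) h'
  · refine Finset.sum_eq_zero fun τ _ => ?_
    rw [Pi.single_eq_of_ne, mul_zero, zero_mul]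
    intro h'
    exact h (congrArg Prod.fst h').symm

theorem dpw_zero (P : Mt N) (c : ℕ) : dpw P 0 c = 0 := by
  unfold dpw
  exact Finset.sum_eq_zero fun r _ => by rw [mul_zero, zero_mul]

theorem dpw_loop (g : SU N) (A : Mt N) (c : ℕ) :
    dpw g.1 (A * g.1) c = ∑ s ∈ Finset.range c, (g ^ s).1 * A * (g ^ (c - s)).1 := by
  unfold dpw
  refine Finset.sum_congr rfl fun s hs => ?_
  rw [Finset.mem_range] at hs
  rw [coe_pow', coe_pow']
  have : c - s = (c - 1 - s) + 1 := by omega
  rw [this, pow_succ']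
  simp only [mul_assoc]

theorem dDr_single [NeZero N] [NeZero l] (α : Col N) (hα : α ≠ (0, 0)) (U : Link n L l → SU N)
    (i : Fin 4) (x : Site n L l) :
    ∃ (S : Finset ℕ) (g h : ℕ → SU N), S.card ≤ N ∧
      (∀ A, dDr α U (Pi.single (i, x) A) x = ∑ s ∈ S, (g s).1 * A * (h s).1) ∧
      ∀ δ : ℝ, (∀ β : Col N, β ≠ (0, 0) → ‖trace (Dr β U x).1‖ ≤ δ) → ∀ s ∈ S,
        g s * h s = Dr α U x ∧ ‖trace (g s).1 * trace (h s).1‖ ≤ N * δ := by
  have h23 : (2 : Fin 4) = 2 ∨ (2 : Fin 4) = 3 := Or.inl rfl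
  have h33 : (3 : Fin 4) = 2 ∨ (3 : Fin 4) = 3 := Or.inr rfl
  have hcard : ∀ c : Fin N, (Finset.range (c : ℕ)).card ≤ N := fun c => by
    rw [Finset.card_range]; exact c.2.le
  by_cases hi2 : i = 2
  · subst hi2
    refine ⟨Finset.range (α.1 : ℕ), fun s => lo 2 U x ^ s,
      fun s => lo 2 U x ^ ((α.1 : ℕ) - s) * lo 3 U x ^ (α.2 : ℕ), hcard _, fun A => ?_, ?_⟩
    · unfold dDr
      rw [dlo_single h23, dlo_single h33, if_pos rfl, if_neg (by decide), dpw_zero, mul_zero,
        add_zero, dpw_loop, Finset.sum_mul]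
      refine Finset.sum_congr rfl fun s _ => ?_
      rw [coe_mul']
      simp only [mul_assoc]
    · intro δ hδ s hs
      rw [Finset.mem_range] at hs
      have hprod : lo 2 U x ^ s * (lo 2 U x ^ ((α.1 : ℕ) - s) * lo 3 U x ^ (α.2 : ℕ)) =
          Dr α U x := by
        rw [← mul_assoc, ← pow_add, Nat.add_sub_cancel' hs.le]
        rfl
      refine ⟨hprod, ?_⟩
      rw [norm_mul]
      by_cases h0 : s = 0
      · subst h0
        have e1 : lo 2 U x ^ ((α.1 : ℕ) - 0) * lo 3 U x ^ (α.2 : ℕ) = Dr α U x := by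
          rw [Nat.sub_zero]; rfl
        beta_reduce
        rw [e1]
        exact mul_le_mul (norm_tr_SU _) (hδ α hα) (norm_nonneg _) (Nat.cast_nonneg _)
      · have hsN : s < N := hs.trans α.1.2
        have e1 : lo 2 U x ^ s = Dr (⟨s, hsN⟩, 0) U x := by
          have : ((0 : Fin N) : ℕ) = 0 := rfl
          unfold Dr
          rw [this, pow_zero, mul_one]
          rfl
        have hne : ((⟨s, hsN⟩, 0) : Col N) ≠ (0, 0) := by
          intro h
          exact h0 (congrArg (fun p : Col N => (p.1 : ℕ)) h)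
        have h1 := hδ _ hne
        rw [← e1] at h1
        rw [mul_comm]
        exact mul_le_mul (norm_tr_SU _) h1 (norm_nonneg _) (Nat.cast_nonneg _)
  · by_cases hi3 : i = 3
    · subst hi3
      refine ⟨Finset.range (α.2 : ℕ), fun s => lo 2 U x ^ (α.1 : ℕ) * lo 3 U x ^ s,
        fun s => lo 3 U x ^ ((α.2 : ℕ) - s), hcard _, fun A => ?_, ?_⟩
      · unfold dDr
        rw [dlo_single h23, dlo_single h33, if_pos rfl, if_neg (by decide), dpw_zero, zero_mul,
          zero_add, dpw_loop, Finset.mul_sum]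
        refine Finset.sum_congr rfl fun s _ => ?_
        rw [coe_mul']
        simp only [mul_assoc]
      · intro δ hδ s hs
        rw [Finset.mem_range] at hs
        have hprod : lo 2 U x ^ (α.1 : ℕ) * lo 3 U x ^ s * lo 3 U x ^ ((α.2 : ℕ) - s) =
            Dr α U x := by
          rw [mul_assoc, ← pow_add, Nat.add_sub_cancel' hs.le]
          rfl
        refine ⟨hprod, ?_⟩
        rw [norm_mul]
        have hsN : (α.2 : ℕ) - s < N := (Nat.sub_le _ _).trans_lt α.2.2
        have e1 : lo 3 U x ^ ((α.2 : ℕ) - s) = Dr (0, ⟨(α.2 : ℕ) - s, hsN⟩) U x := by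
          have : ((0 : Fin N) : ℕ) = 0 := rfl
          unfold Dr
          rw [this, pow_zero, one_mul]
          rfl
        have hne : ((0, ⟨(α.2 : ℕ) - s, hsN⟩) : Col N) ≠ (0, 0) := by
          intro h
          have h1 : (α.2 : ℕ) - s = 0 := congrArg (fun p : Col N => (p.2 : ℕ)) h
          omega
        have h1 := hδ _ hne
        rw [← e1] at h1
        exact mul_le_mul (norm_tr_SU _) h1 (norm_nonneg _) (Nat.cast_nonneg _)
    · refine ⟨∅, fun _ => 1, fun _ => 1, by simp, fun A => ?_, fun δ _ s hs => ?_⟩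
      · unfold dDr
        rw [dlo_single h23, dlo_single h33, if_neg hi2, if_neg hi3, dpw_zero, dpw_zero, mul_zero,
          zero_mul, add_zero, Finset.sum_empty]
      · exact absurd hs (Finset.notMem_empty s)

/-- the derivative of the vector field `Ka a` at the link `e` -/
def Kv [NeZero N] (a : Col N → Fin 4 → Site n L l → ℂ) (U : Link n L l → SU N)
    (e : Link n L l) (A : Mt N) : Mt N :=
  pr (∑ α ∈ (Finset.univ : Finset (Col N)).erase (0, 0),
    a α e.1 e.2 • dDr α U (Pi.single e A) e.2)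

theorem hasDerivAt_Ka [NeZero N] (a : Col N → Fin 4 → Site n L l → ℂ)
    (U : Link n L l → SU N) (e : Link n L l) {A : Mt N} (hA : SkT A) :
    HasDerivAt (fun t : ℝ => Ka a (fg (Pi.single e A) t U) e) (Kv a U e A) 0 := by
  unfold Ka Kv
  refine hasDerivAt_pr _ _ (HasDerivAt.fun_sum fun α _ => ?_)
  exact (hasDerivAt_dDr α U (skT_single hA e) e.2).const_smul (a α e.1 e.2)

theorem trace_Dr_le (hQ2 : S_Q2) (N : ℕ) [NeZero N] : ∃ C : ℝ, ∃ p : ℕ, 0 < C ∧
    ∀ (n L l k : ℕ) [NeZero n] [NeZero L] [NeZero l], Nat.Coprime k N →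
    ∀ (q : ZMod n × ZMod L → ZMod N) (U : Link n L l → SU N) (α : Col N) (x : Site n L l),
    α ≠ (0, 0) → ‖trace (Dr α U x).1‖ ≤ C * l ^ p * ss k q U := by
  obtain ⟨C, p, hC, h⟩ := hQ2 N
  refine ⟨C, p, hC, fun n L l k _ _ _ hk q U α x hα => ?_⟩
  have h1 := h n L l k hk q U α (0, 0) x hα
  have h2 : Dr (0, 0) U x = (1 : SU N) := by
    have : ((0 : Fin N) : ℕ) = 0 := rfl
    unfold Dr
    rw [this, pow_zero, pow_zero, mul_one]
  rw [h2] at h1
  have h3 : ((1 : SU N).1)ᴴ = (1 : Mt N) := by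
    rw [coe_one', conjTranspose_one]
  rwa [h3, mul_one] at h1

theorem t_R5' (hQ2 : S_Q2) : S_R5 := by
  intro N _
  obtain ⟨C, p, hC, hT⟩ := trace_Dr_le hQ2 N
  have hN1 : (1 : ℝ) ≤ N := by exact_mod_cast Nat.pos_of_neZero N
  have hN0 : (0 : ℝ) < N := by linarith
  refine ⟨2 * N ^ 4 + 4 * N ^ 3 * (N + 1) * C, p + 1, by positivity, ?_⟩
  intro n L l k _ _ _ hk a M hM
  have hM0 : 0 ≤ M := (norm_nonneg _).trans (hM (0, 0) 0 0)
  have hcol : (((Finset.univ : Finset (Col N)).erase (0, 0)).card : ℝ) ≤ N ^ 2 := by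
    have h1 : ((Finset.univ : Finset (Col N)).erase (0, 0)).card ≤ N ^ 2 := by
      refine (Finset.card_erase_le).trans ?_
      rw [Finset.card_univ, Fintype.card_prod, Fintype.card_fin, sq]
    exact_mod_cast h1
  refine ⟨Kv a, fun U e A hA => ⟨hasDerivAt_Ka a U e hA, ?_⟩, fun q U => ?_⟩
  · have h1 : ∀ α ∈ (Finset.univ : Finset (Col N)).erase (0, 0),
        ‖a α e.1 e.2 • dDr α U (Pi.single e A) e.2‖ ≤ M * (N * ‖A‖) := by
      intro α hα
      obtain ⟨S, g, h, hS, hd, _⟩ := dDr_single α (Finset.ne_of_mem_erase hα) U e.1 e.2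
      rw [norm_smul]
      refine mul_le_mul (hM _ _ _) ?_ (norm_nonneg _) hM0
      have h2 : dDr α U (Pi.single e A) e.2 = ∑ s ∈ S, (g s).1 * A * (h s).1 := hd A
      rw [h2]
      refine (norm_sum_le _ _).trans ?_
      have h3 : ∀ s ∈ S, ‖(g s).1 * A * (h s).1‖ ≤ ‖A‖ := fun s _ => by
        rw [norm_mul_SU, norm_SU_mul]
      refine (Finset.sum_le_sum h3).trans ?_
      rw [Finset.sum_const, nsmul_eq_mul]
      have h4 : (S.card : ℝ) ≤ N := by exact_mod_cast hS
      exact mul_le_mul_of_nonneg_right h4 (norm_nonneg _)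
    have h2 : ‖Kv a U e A‖ ≤ 2 * N * (N ^ 2 * (M * (N * ‖A‖))) := by
      refine (Run7.h771.QC.norm_pr_le _).trans (mul_le_mul_of_nonneg_left ?_ (by positivity))
      refine (norm_sum_le _ _).trans ((Finset.sum_le_sum h1).trans ?_)
      rw [Finset.sum_const, nsmul_eq_mul]
      exact mul_le_mul_of_nonneg_right hcol (by positivity)
    refine h2.trans ?_
    have h3 : 0 ≤ 4 * (N : ℝ) ^ 3 * (N + 1) * C * M * ‖A‖ := by positivity
    calc 2 * N * (N ^ 2 * (M * (N * ‖A‖))) = 2 * N ^ 4 * M * ‖A‖ := by ring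
      _ ≤ 2 * N ^ 4 * M * ‖A‖ + 4 * N ^ 3 * (N + 1) * C * M * ‖A‖ := by linarith
      _ = _ := by ring
  · have hs := ss_nonneg k q U
    have hv := vol_ge (n := n) (L := L) (l := l)
    set δ : ℝ := C * l ^ p * ss k q U with hδ
    have hδ0 : 0 ≤ δ := by positivity
    have hdiv : dvs (Kv a) U = ∑ e : Link n L l, div (Kv a U e) := rfl
    have hone : ∀ e : Link n L l, |div (Kv a U e)| ≤ N ^ 2 * (N * (M * ((N + 1) * δ))) := by
      intro e
      have hE : Kv a U e = fun A => ∑ α ∈ (Finset.univ : Finset (Col N)).erase (0, 0),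
          pr (a α e.1 e.2 • dDr α U (Pi.single e A) e.2) := by
        funext A
        unfold Kv
        rw [pr_sum]
      rw [hE, div_sum]
      refine (Finset.abs_sum_le_sum_abs _ _).trans ?_
      have h1 : ∀ α ∈ (Finset.univ : Finset (Col N)).erase (0, 0),
          |div fun A => pr (a α e.1 e.2 • dDr α U (Pi.single e A) e.2)| ≤
            N * (M * ((N + 1) * δ)) := by
        intro α hα
        have hα' := Finset.ne_of_mem_erase hα
        obtain ⟨S, g, h, hS, hd, hb⟩ := dDr_single α hα' U e.1 e.2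
        have hF : (fun A => pr (a α e.1 e.2 • dDr α U (Pi.single e A) e.2)) =
            fun A => ∑ s ∈ S, pr ((a α e.1 e.2 • (g s).1) * A * (h s).1) := by
          funext A
          have h2 : dDr α U (Pi.single e A) e.2 = ∑ s ∈ S, (g s).1 * A * (h s).1 := hd A
          rw [h2, Finset.smul_sum, pr_sum]
          refine Finset.sum_congr rfl fun s _ => ?_
          rw [smul_mul_assoc, smul_mul_assoc]
        rw [hF, div_sum]
        refine (Finset.abs_sum_le_sum_abs _ _).trans ?_
        have h3 : ∀ s ∈ S, |div fun A => pr ((a α e.1 e.2 • (g s).1) * A * (h s).1)| ≤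
            M * ((N + 1) * δ) := by
          intro s hs'
          obtain ⟨hg, ht⟩ := hb δ (fun β hβ => hT n L l k hk q U β e.2 hβ) s hs'
          rw [div_mul, smul_mul_assoc, trace_smul, trace_smul, ← coe_mul', hg, smul_eq_mul,
            smul_eq_mul, mul_assoc]
          refine (abs_sub _ _).trans ?_
          have c1 : |(a α e.1 e.2 * (trace (g s).1 * trace (h s).1)).re| ≤ M * (N * δ) := by
            refine (Complex.abs_re_le_norm _).trans ?_
            rw [norm_mul]
            exact mul_le_mul (hM _ _ _) ht (norm_nonneg _) hM0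
          have c2 : |(a α e.1 e.2 * trace (Dr α U e.2).1).re / N| ≤ M * δ := by
            rw [abs_div, abs_of_pos hN0]
            refine (div_le_self (abs_nonneg _) hN1).trans ?_
            refine (Complex.abs_re_le_norm _).trans ?_
            rw [norm_mul]
            exact mul_le_mul (hM _ _ _) (hT n L l k hk q U α e.2 hα') (norm_nonneg _) hM0
          calc _ ≤ M * (N * δ) + M * δ := add_le_add c1 c2
            _ = _ := by ring
        refine (Finset.sum_le_sum h3).trans ?_
        rw [Finset.sum_const, nsmul_eq_mul]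
        have h4 : (S.card : ℝ) ≤ N := by exact_mod_cast hS
        exact mul_le_mul_of_nonneg_right h4 (by positivity)
      refine (Finset.sum_le_sum h1).trans ?_
      rw [Finset.sum_const, nsmul_eq_mul]
      exact mul_le_mul_of_nonneg_right hcol (by positivity)
    rw [hdiv]
    refine (Finset.abs_sum_le_sum_abs _ _).trans ((Finset.sum_le_sum fun e _ => hone e).trans ?_)
    rw [Finset.sum_const, nsmul_eq_mul]
    have hcl : ((Finset.univ : Finset (Link n L l)).card : ℝ) = 4 * vol n L l := by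
      have h1 := card_site (n := n) (L := L) (l := l)
      rw [Finset.card_univ] at h1 ⊢
      rw [Fintype.card_prod, Fintype.card_fin]
      push_cast
      rw [h1]
    rw [hcl]
    have hl : (l : ℝ) ^ p ≤ vol n L l ^ p := pow_le_pow_left₀ (Nat.cast_nonneg _) hv.2 p
    have hv0 : 0 ≤ vol n L l := by linarith [hv.1]
    have h5 : 0 ≤ 2 * (N : ℝ) ^ 4 * vol n L l ^ (p + 1) * M * ss k q U := by positivity
    calc 4 * vol n L l * (N ^ 2 * (N * (M * ((N + 1) * δ))))
        = 4 * N ^ 3 * (N + 1) * C * (vol n L l * (l : ℝ) ^ p) * M * ss k q U := by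
          rw [hδ]; ring
      _ ≤ 4 * N ^ 3 * (N + 1) * C * (vol n L l * vol n L l ^ p) * M * ss k q U := by gcongr
      _ = 4 * N ^ 3 * (N + 1) * C * vol n L l ^ (p + 1) * M * ss k q U := by ring
      _ ≤ 2 * N ^ 4 * vol n L l ^ (p + 1) * M * ss k q U +
          4 * N ^ 3 * (N + 1) * C * vol n L l ^ (p + 1) * M * ss k q U := by linarith
      _ = _ := by ring

theorem t_R5 : S_R5 := t_R5' (Run7.h105.QC.t_Q2 Run7.h105.QC.t_Q1)

end

end Run7.h771.QF
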