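import Pool.Agent.Run7.h771.QF.R1

/-!
# From the Schwinger-Dyson equation to the equations of the characteristic function
-/

open MeasureTheory Matrix Filter Topology
open scoped Matrix.Norms.Frobenius ComplexConjugate

namespace Run7.h771.QF

open Run7.h4.YM Run7.h630.ML Run7.h630.MQ Run7.h630.QC Run7.h771.MQ Run7.h771.QC Run7.h370.QC
  Run7.h370.MQ Run7.h630.QF

noncomputable section

variable {N n L l : ℕ}

theorem ss_le [NeZero n] [NeZero L] [NeZero l] (k : ℕ) (q : ZMod n × ZMod L → ZMod N)
    (U : Link n L l → SU N) {β : ℝ} (hβ : 1 ≤ β) :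
    ss k q U ≤ (1 + β * Sq k q U) / Real.sqrt β := by
  have hS : 0 ≤ 2 * Sq k q U := two_Sq_nonneg k q U
  have hb : 0 < Real.sqrt β := Real.sqrt_pos.2 (by linarith)
  rw [le_div_iff₀ hb]
  have h1 := ss_sq' k q U
  have h2 := Real.sq_sqrt (show 0 ≤ β by linarith)
  have h3 := ss_nonneg k q U
  refine abs_le_of_sq_le_sq' ?_ (by nlinarith) |>.2
  rw [mul_pow, h1, h2]
  nlinarith [sq_nonneg (1 - β * Sq k q U)]

/-- the general form, for bounded test functions -/
theorem form [NeZero N] [NeZero n] [NeZero L] [NeZero l] [MeasurableSpace (SU N)]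
    [BorelSpace (SU N)] (μ : Measure (SU N)) [IsProbabilityMeasure μ] [μ.IsHaarMeasure] (k : ℕ)
    (q : ZMod n × ZMod L → ZMod N) (β : ℝ) (hβ : 1 ≤ β)
    (f : Col N → Fin 4 → Fin 4 → Site n L l → ℂ) (a : Col N → Fin 4 → Site n L l → ℂ)
    (V dF : (Link n L l → SU N) → ℝ) (hmF : Measurable dF) (hbF : ∃ B, ∀ U, |dF U| ≤ B)
    (hmV : Measurable V) (hbV : ∃ B, ∀ U, |V U| ≤ B)
    (c B : ℝ) (h1 : ∀ U, |dSq k q U (Ka a U) + Ph k q f U| ≤ B * ss k q U ^ 2)
    (h2 : ∀ U, |V U| ≤ B * ss k q U) (h3 : ∀ U, |dF U + c| ≤ B * ss k q U) (hB : 0 ≤ B)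
    (g g' : ℝ → ℝ) (hg : Continuous g) (hg' : Continuous g')
    (bg : ∀ y, |g y| ≤ 1 / Real.sqrt β) (bg' : ∀ y, |g' y| ≤ 1)
    (hSD : ∫ U, (β * dSq k q U (Ka a U) * g (Ph k q f U) - V U * g (Ph k q f U) -
        g' (Ph k q f U) * dF U) * Real.exp (-(β * Sq k q U))
        ∂(Measure.pi fun _ : Link n L l => μ) = 0) :
    |∫ U, β * Ph k q f U * g (Ph k q f U) * Real.exp (-(β * Sq k q U))
        ∂(Measure.pi fun _ : Link n L l => μ) -
      c * ∫ U, g' (Ph k q f U) * Real.exp (-(β * Sq k q U))
        ∂(Measure.pi fun _ : Link n L l => μ)| ≤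
      6 * B / Real.sqrt β * ∫ U, (1 + (β * Sq k q U) ^ 3) * Real.exp (-(β * Sq k q U))
        ∂(Measure.pi fun _ : Link n L l => μ) := by
  have hP := cont_Ph (N := N) k q f
  have hS := continuous_Sq (n := n) (L := L) (l := l) k q
  have hE : Continuous fun U : Link n L l → SU N => Real.exp (-(β * Sq k q U)) :=
    Real.continuous_exp.comp (continuous_const.mul hS).neg
  have hD : Continuous fun U : Link n L l → SU N => dSq k q U (Ka a U) :=
    cont_dSq k q fun e => cont_Ka a e
  have hG : Continuous fun U : Link n L l → SU N => g (Ph k q f U) := hg.comp hP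
  have hG' : Continuous fun U : Link n L l → SU N => g' (Ph k q f U) := hg'.comp hP
  have hci : ∀ u : (Link n L l → SU N) → ℝ, Continuous u →
      Integrable u (Measure.pi fun _ : Link n L l => μ) := by
    intro u hu
    obtain ⟨C, _, hC⟩ := exists_bound u hu
    exact Integrable.of_bound hu.aestronglyMeasurable C (Eventually.of_forall hC)
  have hmi : ∀ u : (Link n L l → SU N) → ℝ, Measurable u → (∃ B, ∀ U, |u U| ≤ B) →
      Integrable u (Measure.pi fun _ : Link n L l => μ) := by
    intro u hu hb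
    obtain ⟨C, hC⟩ := hb
    exact Integrable.of_bound hu.aestronglyMeasurable C (Eventually.of_forall hC)
  obtain ⟨CF, hCF⟩ := hbF
  obtain ⟨CV, hCV⟩ := hbV
  -- the remainder
  set R : (Link n L l → SU N) → ℝ := fun U =>
    (β * (dSq k q U (Ka a U) + Ph k q f U) * g (Ph k q f U) - V U * g (Ph k q f U) -
      g' (Ph k q f U) * (dF U + c)) * Real.exp (-(β * Sq k q U)) with hR
  have i1 : Integrable (fun U : Link n L l → SU N =>
      β * Ph k q f U * g (Ph k q f U) * Real.exp (-(β * Sq k q U)))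
      (Measure.pi fun _ : Link n L l => μ) :=
    hci _ (((continuous_const.mul hP).mul hG).mul hE)
  have i2 : Integrable (fun U : Link n L l → SU N =>
      c * (g' (Ph k q f U) * Real.exp (-(β * Sq k q U))))
      (Measure.pi fun _ : Link n L l => μ) :=
    hci _ (continuous_const.mul (hG'.mul hE))
  have i3 : Integrable (fun U : Link n L l → SU N =>
      (β * dSq k q U (Ka a U) * g (Ph k q f U) - V U * g (Ph k q f U) -
        g' (Ph k q f U) * dF U) * Real.exp (-(β * Sq k q U)))
      (Measure.pi fun _ : Link n L l => μ) := by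
    obtain ⟨C1, hC1, b1⟩ := exists_bound _ ((continuous_const.mul hD).mul hG)
    obtain ⟨C2, hC2, b2⟩ := exists_bound _ hG
    obtain ⟨C3, hC3, b3⟩ := exists_bound _ hG'
    obtain ⟨C4, hC4, b4⟩ := exists_bound _ hE
    refine hmi _ (((((continuous_const.mul hD).mul hG).measurable.sub
      (hmV.mul hG.measurable)).sub (hG'.measurable.mul hmF)).mul hE.measurable)
      ⟨(C1 + CV * C2 + C3 * CF) * C4, fun U => ?_⟩
    have hCV0 := (abs_nonneg _).trans (hCV U)
    have hCF0 := (abs_nonneg _).trans (hCF U)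
    rw [abs_mul]
    refine mul_le_mul ?_ (b4 U) (abs_nonneg _) (by positivity)
    refine (abs_sub _ _).trans (add_le_add ((abs_sub _ _).trans (add_le_add (b1 U) ?_)) ?_)
    · rw [abs_mul]
      exact mul_le_mul (hCV U) (b2 U) (abs_nonneg _) hCV0
    · rw [abs_mul]
      exact mul_le_mul (b3 U) (hCF U) (abs_nonneg _) hC3
  have hRe : R = fun U => ((β * dSq k q U (Ka a U) * g (Ph k q f U) - V U * g (Ph k q f U) -
        g' (Ph k q f U) * dF U) * Real.exp (-(β * Sq k q U))) +
      (β * Ph k q f U * g (Ph k q f U) * Real.exp (-(β * Sq k q U)) -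
        c * (g' (Ph k q f U) * Real.exp (-(β * Sq k q U)))) := by
    funext U
    simp only [hR]
    ring
  have iR : Integrable R (Measure.pi fun _ : Link n L l => μ) := by
    rw [hRe]
    exact i3.add (i1.sub i2)
  have hInt : ∫ U, R U ∂(Measure.pi fun _ : Link n L l => μ) =
      ∫ U, β * Ph k q f U * g (Ph k q f U) * Real.exp (-(β * Sq k q U))
        ∂(Measure.pi fun _ : Link n L l => μ) -
      c * ∫ U, g' (Ph k q f U) * Real.exp (-(β * Sq k q U))
        ∂(Measure.pi fun _ : Link n L l => μ) := by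
    have j1 := integral_add i3 (i1.sub i2)
    have j2 := integral_sub i1 i2
    simp only [Pi.sub_apply] at j1
    rw [hRe, ← integral_const_mul, ← j2]
    beta_reduce
    rw [j1, hSD, zero_add]
  rw [← hInt]
  have hb : 0 < Real.sqrt β := Real.sqrt_pos.2 (by linarith)
  have hbb : Real.sqrt β * Real.sqrt β = β := Real.mul_self_sqrt (by linarith)
  have hb1 : 1 ≤ Real.sqrt β := by
    rw [Real.one_le_sqrt]; exact hβ
  have hpt : ∀ U : Link n L l → SU N, ‖R U‖ ≤
      6 * B / Real.sqrt β * ((1 + (β * Sq k q U) ^ 3) * Real.exp (-(β * Sq k q U))) := by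
    intro U
    have hx : 0 ≤ β * Sq k q U := by
      have := two_Sq_nonneg k q U
      nlinarith
    have hs := ss_nonneg k q U
    have hsle := ss_le k q U hβ
    have hss := ss_sq' k q U
    rw [hR, Real.norm_eq_abs, abs_mul, Real.abs_exp, ← mul_assoc]
    refine mul_le_mul_of_nonneg_right ?_ (Real.exp_pos _).le
    set x := β * Sq k q U with hxdef
    have c1 : |β * (dSq k q U (Ka a U) + Ph k q f U) * g (Ph k q f U)| ≤
        B / Real.sqrt β * (2 * x) := by
      rw [abs_mul, abs_mul, abs_of_pos (by linarith : 0 < β)]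
      calc β * |dSq k q U (Ka a U) + Ph k q f U| * |g (Ph k q f U)|
          ≤ β * (B * ss k q U ^ 2) * (1 / Real.sqrt β) :=
            mul_le_mul (mul_le_mul_of_nonneg_left (h1 U) (by linarith)) (bg _) (abs_nonneg _)
              (by positivity)
        _ = B / Real.sqrt β * (2 * x) := by
            rw [hss, hxdef]
            ring
    have c2 : |V U * g (Ph k q f U)| ≤ B / Real.sqrt β * (1 + x) := by
      rw [abs_mul]
      calc |V U| * |g (Ph k q f U)| ≤ (B * ss k q U) * 1 := by
            refine mul_le_mul (h2 U) ((bg _).trans ?_) (abs_nonneg _) (by positivity)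
            rw [div_le_one hb]
            exact hb1
        _ ≤ (B * ((1 + x) / Real.sqrt β)) * 1 := by gcongr
        _ = _ := by ring
    have c3 : |g' (Ph k q f U) * (dF U + c)| ≤ B / Real.sqrt β * (1 + x) := by
      rw [abs_mul]
      calc |g' (Ph k q f U)| * |dF U + c| ≤ 1 * (B * ss k q U) :=
            mul_le_mul (bg' _) (h3 U) (abs_nonneg _) zero_le_one
        _ ≤ 1 * (B * ((1 + x) / Real.sqrt β)) := by gcongr
        _ = _ := by ring
    have hq0 : 0 ≤ B / Real.sqrt β := by positivity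
    have hpoly : 2 * x + (1 + x) + (1 + x) ≤ 6 * (1 + x ^ 3) := by
      nlinarith [mul_nonneg hx (sq_nonneg (x - 1)), sq_nonneg (x - 1), mul_nonneg hx hx]
    calc _ ≤ B / Real.sqrt β * (2 * x) + B / Real.sqrt β * (1 + x) +
          B / Real.sqrt β * (1 + x) :=
        (abs_sub _ _).trans (add_le_add ((abs_sub _ _).trans (add_le_add c1 c2)) c3)
      _ = B / Real.sqrt β * (2 * x + (1 + x) + (1 + x)) := by ring
      _ ≤ B / Real.sqrt β * (6 * (1 + x ^ 3)) := mul_le_mul_of_nonneg_left hpoly hq0
      _ = _ := by ring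
  rw [← Real.norm_eq_abs]
  refine (norm_integral_le_integral_norm R).trans ?_
  rw [← integral_const_mul]
  refine integral_mono iR.norm ?_ hpt
  exact hci _ (continuous_const.mul ((continuous_const.add
    ((continuous_const.mul hS).pow 3)).mul hE))

/-- **the two equations** -/
theorem forms [NeZero N] [NeZero n] [NeZero L] [NeZero l] [MeasurableSpace (SU N)]
    [BorelSpace (SU N)] (μ : Measure (SU N)) [IsProbabilityMeasure μ] [μ.IsHaarMeasure] (k : ℕ)
    (q : ZMod n × ZMod L → ZMod N) (β : ℝ) (hβ : 1 ≤ β)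
    (f : Col N → Fin 4 → Fin 4 → Site n L l → ℂ) (a : Col N → Fin 4 → Site n L l → ℂ)
    (V dF : (Link n L l → SU N) → ℝ) (hmF : Measurable dF) (hbF : ∃ B, ∀ U, |dF U| ≤ B)
    (hmV : Measurable V) (hbV : ∃ B, ∀ U, |V U| ≤ B)
    (hSD : ∀ g g' : ℝ → ℝ, (∀ y, HasDerivAt g (g' y) y) → Continuous g' →
      ∫ U, (β * dSq k q U (Ka a U) * g (Ph k q f U) - V U * g (Ph k q f U) -
        g' (Ph k q f U) * dF U) * Real.exp (-(β * Sq k q U))
        ∂(Measure.pi fun _ : Link n L l => μ) = 0)
    (c B : ℝ) (hB : 0 ≤ B)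
    (h1 : ∀ U, |dSq k q U (Ka a U) + Ph k q f U| ≤ B * ss k q U ^ 2)
    (h2 : ∀ U, |V U| ≤ B * ss k q U) (h3 : ∀ U, |dF U + c| ≤ B * ss k q U)
    (t : ℝ) (ht0 : 0 ≤ t) (ht1 : t ≤ 1) :
    |∫ U, Real.sqrt β * Ph k q f U * Real.cos (t * (Real.sqrt β * Ph k q f U)) *
      Real.exp (-(β * Sq k q U)) ∂(Measure.pi fun _ : Link n L l => μ) +
    t * c * ∫ U, Real.sin (t * (Real.sqrt β * Ph k q f U)) *
      Real.exp (-(β * Sq k q U)) ∂(Measure.pi fun _ : Link n L l => μ)| ≤
      6 * B / Real.sqrt β * ∫ U, (1 + (β * Sq k q U) ^ 3) * Real.exp (-(β * Sq k q U))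
        ∂(Measure.pi fun _ : Link n L l => μ) ∧
    |∫ U, Real.sqrt β * Ph k q f U * Real.sin (t * (Real.sqrt β * Ph k q f U)) *
      Real.exp (-(β * Sq k q U)) ∂(Measure.pi fun _ : Link n L l => μ) -
    t * c * ∫ U, Real.cos (t * (Real.sqrt β * Ph k q f U)) *
      Real.exp (-(β * Sq k q U)) ∂(Measure.pi fun _ : Link n L l => μ)| ≤
      6 * B / Real.sqrt β * ∫ U, (1 + (β * Sq k q U) ^ 3) * Real.exp (-(β * Sq k q U))
        ∂(Measure.pi fun _ : Link n L l => μ) := by
  have hb : 0 < Real.sqrt β := Real.sqrt_pos.2 (by linarith)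
  have hbb : Real.sqrt β * Real.sqrt β = β := Real.mul_self_sqrt (by linarith)
  have hlin : ∀ y : ℝ, HasDerivAt (fun y : ℝ => t * (Real.sqrt β * y)) (t * Real.sqrt β) y := by
    intro y
    have := ((hasDerivAt_id y).const_mul (Real.sqrt β)).const_mul t
    simpa using this
  have hcl : Continuous fun y : ℝ => t * (Real.sqrt β * y) := by fun_prop
  constructor
  · have hg : ∀ y : ℝ, HasDerivAt (fun y : ℝ => Real.cos (t * (Real.sqrt β * y)) / Real.sqrt β)
        (-(t * Real.sin (t * (Real.sqrt β * y)))) y := by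
      intro y
      refine (((Real.hasDerivAt_cos _).comp y (hlin y)).div_const _).congr_deriv ?_
      field_simp
    have hgc : Continuous fun y : ℝ => Real.cos (t * (Real.sqrt β * y)) / Real.sqrt β :=
      (Real.continuous_cos.comp hcl).div_const _
    have hgc' : Continuous fun y : ℝ => -(t * Real.sin (t * (Real.sqrt β * y))) :=
      (continuous_const.mul (Real.continuous_sin.comp hcl)).neg
    have h := form μ k q β hβ f a V dF hmF hbF hmV hbV c B h1 h2 h3 hB _ _ hgc hgc' ?_ ?_
      (hSD _ _ hg hgc')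
    · refine le_trans (le_of_eq ?_) h
      congr 1
      have e1 : ∀ U : Link n L l → SU N, β * Ph k q f U *
          (Real.cos (t * (Real.sqrt β * Ph k q f U)) / Real.sqrt β) *
            Real.exp (-(β * Sq k q U)) = Real.sqrt β * Ph k q f U *
          Real.cos (t * (Real.sqrt β * Ph k q f U)) * Real.exp (-(β * Sq k q U)) := by
        intro U
        have : β / Real.sqrt β = Real.sqrt β := by
          rw [div_eq_iff hb.ne', hbb]
        calc _ = (β / Real.sqrt β) * Ph k q f U *
          Real.cos (t * (Real.sqrt β * Ph k q f U)) * Real.exp (-(β * Sq k q U)) := by ring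
          _ = _ := by rw [this]
      have e2 : ∀ U : Link n L l → SU N, -(t * Real.sin (t * (Real.sqrt β * Ph k q f U))) *
          Real.exp (-(β * Sq k q U)) = -t * (Real.sin (t * (Real.sqrt β * Ph k q f U)) *
          Real.exp (-(β * Sq k q U))) := by
        intro U; ring
      simp only [e1, e2, integral_const_mul]
      ring
    · intro y
      rw [abs_div, abs_of_pos hb]
      exact div_le_div_of_nonneg_right (Real.abs_cos_le_one _) hb.le
    · intro y
      rw [abs_neg, abs_mul, abs_of_nonneg ht0]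
      exact mul_le_one₀ ht1 (abs_nonneg _) (Real.abs_sin_le_one _)
  · have hg : ∀ y : ℝ, HasDerivAt (fun y : ℝ => Real.sin (t * (Real.sqrt β * y)) / Real.sqrt β)
        (t * Real.cos (t * (Real.sqrt β * y))) y := by
      intro y
      refine (((Real.hasDerivAt_sin _).comp y (hlin y)).div_const _).congr_deriv ?_
      field_simp
    have hgc : Continuous fun y : ℝ => Real.sin (t * (Real.sqrt β * y)) / Real.sqrt β :=
      (Real.continuous_sin.comp hcl).div_const _
    have hgc' : Continuous fun y : ℝ => t * Real.cos (t * (Real.sqrt β * y)) :=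
      continuous_const.mul (Real.continuous_cos.comp hcl)
    have h := form μ k q β hβ f a V dF hmF hbF hmV hbV c B h1 h2 h3 hB _ _ hgc hgc' ?_ ?_
      (hSD _ _ hg hgc')
    · refine le_trans (le_of_eq ?_) h
      congr 1
      have e1 : ∀ U : Link n L l → SU N, β * Ph k q f U *
          (Real.sin (t * (Real.sqrt β * Ph k q f U)) / Real.sqrt β) *
            Real.exp (-(β * Sq k q U)) = Real.sqrt β * Ph k q f U *
          Real.sin (t * (Real.sqrt β * Ph k q f U)) * Real.exp (-(β * Sq k q U)) := by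
        intro U
        have : β / Real.sqrt β = Real.sqrt β := by
          rw [div_eq_iff hb.ne', hbb]
        calc _ = (β / Real.sqrt β) * Ph k q f U *
          Real.sin (t * (Real.sqrt β * Ph k q f U)) * Real.exp (-(β * Sq k q U)) := by ring
          _ = _ := by rw [this]
      have e2 : ∀ U : Link n L l → SU N, t * Real.cos (t * (Real.sqrt β * Ph k q f U)) *
          Real.exp (-(β * Sq k q U)) = t * (Real.cos (t * (Real.sqrt β * Ph k q f U)) *
          Real.exp (-(β * Sq k q U))) := by
        intro U; ring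
      simp only [e1, e2, integral_const_mul]
      ring
    · intro y
      rw [abs_div, abs_of_pos hb]
      exact div_le_div_of_nonneg_right (Real.abs_sin_le_one _) hb.le
    · intro y
      rw [abs_mul, abs_of_nonneg ht0]
      exact mul_le_one₀ ht1 (abs_nonneg _) (Real.abs_cos_le_one _)

end

end Run7.h771.QF
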